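import Pool.Agent.Y735.R2.NoL

/-!
Dimension and lines after an algebraic extension of the base field.
-/

set_option autoImplicit false

open MvPolynomial Pool.Agent.TH145.GH Pool.Agent.W602.GT
open Pool.Agent.TH145
open Pool.Agent.TH145.MG (DimLE)

namespace Pool.Agent.Y735.R3

open Pool.Agent.Y735.R2

theorem trdeg_coords_le {F0 C Ω : Type} [Field F0] [Field C] [Field Ω] [Algebra F0 C]
    [Algebra C Ω] [Algebra F0 Ω] [IsScalarTower F0 C Ω] [Algebra.IsAlgebraic F0 C] {n : ℕ}
    (x : Fin (n + 1) → Ω) :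
    Algebra.trdeg C (coords C x) ≤ Algebra.trdeg F0 (coords F0 x) := by
  obtain ⟨S, hS⟩ : ∃ S : Set Ω, S = {z | ∃ i j, x j ≠ 0 ∧ z = x i / x j} := ⟨_, rfl⟩
  have h0 : (coords F0 x).toSubfield = Subfield.closure (Set.range (algebraMap F0 Ω) ∪ S) := by
    rw [hS]
    exact IntermediateField.adjoin_toSubfield _ _
  have h1 : (coords C x).toSubfield = Subfield.closure (Set.range (algebraMap C Ω) ∪ S) := by
    rw [hS]
    exact IntermediateField.adjoin_toSubfield _ _
  have hle : (coords F0 x).toSubfield ≤ (coords C x).toSubfield := by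
    rw [h0, h1]
    refine Subfield.closure_mono (Set.union_subset_union_left _ ?_)
    rintro _ ⟨r, rfl⟩
    exact ⟨algebraMap F0 C r, (IsScalarTower.algebraMap_apply F0 C Ω r).symm⟩
  let φ : coords F0 x →+* coords C x :=
    { toFun := fun z => ⟨z, hle z.2⟩
      map_one' := rfl
      map_mul' := fun _ _ => rfl
      map_zero' := rfl
      map_add' := fun _ _ => rfl }
  let _ : Algebra (coords F0 x) (coords C x) := φ.toAlgebra
  have hst : IsScalarTower F0 (coords F0 x) (coords C x) :=
    IsScalarTower.of_algebraMap_eq fun r => by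
      apply Subtype.ext
      rfl
  have halg : Algebra.IsAlgebraic (coords F0 x) (coords C x) := by
    refine ⟨fun z => ?_⟩
    have h2 : (coords C x).toSubfield ≤ (algebraicClosure (coords F0 x) Ω).toSubfield := by
      rw [h1, Subfield.closure_le]
      rintro w (⟨c, rfl⟩ | hw)
      · have h3 : IsAlgebraic F0 c := Algebra.IsAlgebraic.isAlgebraic c
        have h4 : IsAlgebraic F0 (algebraMap C Ω c) := h3.algebraMap
        exact (mem_algebraicClosure_iff).2 (h4.tower_top (coords F0 x))
      · refine (mem_algebraicClosure_iff).2 ?_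
        have h3 : w ∈ coords F0 x := by
          have h4 : w ∈ (coords F0 x).toSubfield := by
            rw [h0]
            exact Subfield.subset_closure (Or.inr hw)
          exact h4
        exact isAlgebraic_algebraMap (⟨w, h3⟩ : coords F0 x)
    have h3 : IsAlgebraic (coords F0 x) (z : Ω) := (mem_algebraicClosure_iff).1 (h2 z.2)
    have hst' : IsScalarTower (coords F0 x) (coords C x) Ω :=
      IsScalarTower.of_algebraMap_eq fun _ => rfl
    exact (isAlgebraic_algebraMap_iff (A := Ω) (algebraMap (coords C x) Ω).injective).1 h3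
  have h2 := _root_.trdeg_add_eq F0 C (A := coords C x)
  have h3 := _root_.trdeg_add_eq F0 (coords F0 x) (A := coords C x)
  rw [_root_.trdeg_eq_zero (R := F0) (A := C), zero_add] at h2
  rw [_root_.trdeg_eq_zero (R := coords F0 x) (A := coords C x), add_zero] at h3
  rw [h2, h3]

theorem dimLE_alg {F0 C : Type} [Field F0] [Field C] [Algebra F0 C] [Algebra.IsAlgebraic F0 C]
    {n m : ℕ} (V : Set (MvPolynomial (Fin (n + 1)) F0)) (hV : DimLE F0 V m) :
    DimLE C (map (algebraMap F0 C) '' V) m := by
  intro Ω _ _ x hx hxV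
  let _ : Algebra F0 Ω := ((algebraMap C Ω).comp (algebraMap F0 C)).toAlgebra
  have hst : IsScalarTower F0 C Ω := IsScalarTower.of_algebraMap_eq fun _ => rfl
  refine (trdeg_coords_le (F0 := F0) (C := C) x).trans (hV Ω x hx fun f hf => ?_)
  rw [← hxV _ ⟨f, hf, rfl⟩, aeval_map_algebraMap]

/-- There are no lines on the generic complete intersections. -/
theorem noLine_K {F0 E : Type} [Field F0] [Field E] [Algebra F0 E]
    {n m : ℕ} {A : Type} [Fintype A] {dg : A → ℕ} (hd : 2 * m + 2 ≤ ∑ a, (dg a + 1))
    (V : Set (MvPolynomial (Fin (n + 1)) F0)) (hV : DimLE F0 V m)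
    {F : A → MvPolynomial (Fin (n + 1)) E} (hF : ∀ a, (F a).IsHomogeneous (dg a))
    (hind : AlgebraicIndependent F0 fun p : GC.Cf n dg => (F p.1).coeff p.2.1)
    (l0 : Fin (n + 1)) : NoLine (algebraMap F0 E) V F l0 := by
  classical
  intro κ _ _ _ ρ u u' hu hu' H
  by_contra hne
  let _ : Algebra F0 κ := (ρ.comp (algebraMap F0 E)).toAlgebra
  let ρ' : E →ₐ[F0] κ := { ρ with commutes' := fun _ => rfl }
  have hind' : AlgebraicIndependent F0 fun p : GC.Cf n dg => (map ρ (F p.1)).coeff p.2.1 := by
    have h1 := hind.map' (f := ρ') ρ'.toRingHom.injective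
    have h2 : (fun p : GC.Cf n dg => (map ρ (F p.1)).coeff p.2.1) =
        ρ' ∘ fun p : GC.Cf n dg => (F p.1).coeff p.2.1 := by
      funext p
      rw [coeff_map]
      rfl
    rw [h2]
    exact h1
  have hac : IsAlgClosed (algebraicClosure F0 κ) :=
    (algebraicClosure.isAlgClosure F0 κ).isAlgClosed
  obtain ⟨T, hT⟩ : ∃ T : Finset κ, T = Finset.univ.image u ∪ Finset.univ.image u' := ⟨_, rfl⟩
  have hfin := Pool.Agent.Y735.R.fin_points_alg (k0 := algebraicClosure F0 κ) (K := κ) (r := 1)
    (by omega) (map (algebraMap F0 (algebraicClosure F0 κ)) '' V) (dimLE_alg V hV)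
    (F := fun a => map ρ (F a)) (fun a => (hF a).map ρ) hind'.algebraicClosure T l0
  have hinj : Function.Injective fun τ : ℕ => fun j => u j + (τ : κ) * u' j := by
    intro a b hab
    obtain ⟨j, hj⟩ := Function.ne_iff.1 hne
    have h1 := congrFun hab j
    have h2 : ((a : κ) - b) * u' j = 0 := by
      have h3 : u j + (a : κ) * u' j = u j + (b : κ) * u' j := h1
      linear_combination h3
    have h3 := (mul_eq_zero.1 h2).resolve_right hj
    exact_mod_cast sub_eq_zero.1 h3
  refine Set.infinite_of_injective_forall_mem hinj (fun τ => ?_) hfin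
  refine ⟨?_, ?_, fun a => ?_, ⊥, inferInstance, ?_, fun j => ?_⟩
  · dsimp only
    rw [hu, hu', mul_zero, add_zero]
  · rintro _ ⟨f, hf, rfl⟩
    rw [aeval_map_algebraMap]
    exact (H τ).1 f hf
  · rw [eval_map]
    exact (H τ).2 a
  · exact (IntermediateField.finrank_bot).le
  · have hmem : ∀ z ∈ (T : Set κ), z ∈ (⊥ : IntermediateField
        (IntermediateField.adjoin (algebraicClosure F0 κ) (T : Set κ)) κ) := fun z hz =>
      (⊥ : IntermediateField (IntermediateField.adjoin (algebraicClosure F0 κ)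
        (T : Set κ)) κ).algebraMap_mem ⟨z, IntermediateField.subset_adjoin _ _ hz⟩
    have h1 : u j ∈ (T : Set κ) := by
      rw [hT]
      simp
    have h2 : u' j ∈ (T : Set κ) := by
      rw [hT]
      simp
    exact add_mem (hmem _ h1) (mul_mem (natCast_mem _ τ) (hmem _ h2))

end Pool.Agent.Y735.R3
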