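import Pool.Agent.Y735.R2.Core

/-!
The heights of the points of bounded degree are bounded (with the local inequalities as a hypothesis).
-/

set_option autoImplicit false

open MvPolynomial FF Pool.Agent.W603.LV Pool.Agent.W603.PV Pool.Agent.W602.RG
open Pool.Agent.TH145 Pool.Agent.TH145.GH
open Pool.Agent.TH145.MG (DimLE)
open Pool.Agent.Y735.R (hgt_le_of_ge)
open Pool.Agent.Y735.R2
open Filter

namespace Pool.Agent.Y735.R3

/-- The heights of the points of a given degree are bounded. -/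
theorem heights_deg {k0 κ F Ω : Type} [Field k0] [Field κ] [Field F] [Field Ω] [IsAlgClosed κ]
    [CharZero κ] [Algebra κ F] [IsFF κ F] [IsAlgClosed Ω] [Algebra F Ω] [Algebra κ Ω]
    [IsScalarTower κ F Ω] (ψ : k0 →+* F) {n m r : ℕ} {A : Type} [Fintype A]
    {dg : A → ℕ} {G : A → MvPolynomial (Fin (n + 1)) F}
    {q : Place κ F → ℤ} (hq0 : ∀ v, 0 ≤ q v) (hqfin : {v | q v ≠ 0}.Finite)
    (V : Set (MvPolynomial (Fin (n + 1)) k0))
    (hth : ∀ (L : Type) [Field L] [Algebra κ L] [Algebra F L] [IsScalarTower κ F L]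
      [FiniteDimensional F L] [IsFF κ L] (x : Fin (n + 1) → L), x ≠ 0 →
      (∀ f ∈ V, eval₂ ((algebraMap F L).comp ψ) x f = 0) →
      (∀ a, eval x (map (algebraMap F L) (G a)) = 0) →
      ∃ Θ : L, Θ ≠ 0 ∧ ∃ c : ℤ, ∑ a, ((dg a : ℤ) + 1) - 2 * m - 1 ≤ c ∧ ∀ P : Place κ L,
        -c * pord P x - (((ram F P : ℤ) - 1) + (m + 3) * (ram F P * q (under F P))) ≤ P.ord Θ)
    (hd : 2 * m + 1 + r ≤ ∑ a, (dg a + 1)) {l0 : Fin (n + 1)} (hNL : NoLine ψ V G l0)
    {s : ℕ} (hsr : s ≤ r) :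
    ∃ B : ℤ, ∀ (L : IntermediateField F Ω), FiniteDimensional F L → Module.finrank F L = s →
      ∀ x : Fin (n + 1) → L, x l0 = 1 → IntermediateField.adjoin F (Set.range x) = ⊤ →
      (∀ f ∈ V, eval₂ ((algebraMap F L).comp ψ) x f = 0) →
      (∀ a, eval x (map (algebraMap F L) (G a)) = 0) → pht κ x ≤ B := by
  by_contra hcon
  push Not at hcon
  choose L hfd hfr x hxl hgen hxV hxG hpht using fun M : ℕ => hcon M
  have hczF : CharZero F := charZero_of_injective_algebraMap (algebraMap κ F).injective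
  have hczΩ : CharZero Ω := charZero_of_injective_algebraMap (algebraMap F Ω).injective
  have hacOm : IsAlgClosed (Om Ω) := Pool.Agent.W917.RG.GAC.main Ω
  have hczOm : CharZero (Om Ω) :=
    charZero_of_injective_algebraMap (algebraMap Ω (Om Ω)).injective
  have hLF : ∀ M, IsFF κ (L M) := fun M => isFF_of_finite (F := F)
  have hx0 : ∀ M, x M ≠ 0 := by
    intro M h0
    have := hxl M
    rw [h0] at this
    exact zero_ne_one this
  choose Θ hΘ0 c hc hΘ using fun M => hth (L M) (x M) (hx0 M) (hxV M) (hxG M)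
  have hs0 : 0 < s := by rw [← hfr 0]; exact Module.finrank_pos
  have hsc : ∀ M, (s : ℤ) ≤ c M := by
    intro M
    have h5 : ((2 * m + 1 + r : ℕ) : ℤ) ≤ ((∑ a, (dg a + 1) : ℕ) : ℤ) := by exact_mod_cast hd
    have h6 : (s : ℤ) ≤ r := by exact_mod_cast hsr
    have h7 := hc M
    push_cast at h5
    linarith
  choose ε hεi hεt hε0 using fun M => exists_enum (Ω := Ω) (hfr M) (x M) (hgen M) ⟨0, hs0⟩
  -- the traces
  obtain ⟨C, hC⟩ : ∃ C : ℤ, C = ∑ᶠ v : Place κ F, ((m : ℤ) + 3) * q v := ⟨_, rfl⟩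
  have hqf : {v : Place κ F | ((m : ℤ) + 3) * q v ≠ 0}.Finite := by
    refine hqfin.subset fun v hv => ?_
    exact right_ne_zero_of_mul hv
  have htr : ∀ (f : Fin s → Fin (n + 1)) M, hgt κ (Algebra.trace F (L M)
      (Θ M * ∏ i, x M (f i))) ≤ C := by
    intro f M
    rw [hC]
    exact hgt_le_of_ge (k := κ) (b := fun v => (m + 3) * q v)
      (fun v => mul_nonneg (by positivity) (hq0 v)) hqf
      (trace_bound (hxl M) (hsc M) (hΘ M) f)
  -- the field
  obtain ⟨𝕂, h𝕂a, h𝕂, h𝕂i⟩ := exists_KK κ F Ω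
  have h𝕂c : CharZero 𝕂 := (algebraMap 𝕂 (Om Ω)).charZero
  obtain ⟨u, u', t, hu, hu', hxu⟩ := dec_seq (κ := κ) (F := F) (l0 := l0) 𝕂 h𝕂
    (fun e M j => ε M e (x M j)) hεi (fun e M => by rw [hxl, map_one]) (fun e M => ε M e (Θ M))
    (fun e M => (map_ne_zero_iff _ (ε M e).injective).2 (hΘ0 M))
    (fun f M => Algebra.trace F (L M) (Θ M * ∏ i, x M (f i))) C htr
    (fun f M => by
      rw [hεt]
      exact Finset.sum_congr rfl fun e _ => by rw [map_mul, map_prod]) ⟨0, hs0⟩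
  -- the point is algebraic over the field
  obtain ⟨ρ, hρ⟩ : ∃ ρ : F →+* 𝕂, (algebraMap 𝕂 (Om Ω)).comp ρ =
    (cst Ω).comp (algebraMap F Ω) :=
    ⟨((cst Ω).comp (algebraMap F Ω)).codRestrict 𝕂 fun a => h𝕂 (cst_mem_BH a), rfl⟩
  have hpt : ∀ j, (Om.mk fun M => ε M ⟨0, hs0⟩ (x M j)) = Om.mk fun M => (x M j : Ω) :=
    fun j => congrArg Om.mk (funext fun M => hε0 M (x M j))
  have hcom : ∀ {R : Type} [Field R] (σ : R →+* F) (f : MvPolynomial (Fin (n + 1)) R),
      (∀ M, eval₂ ((algebraMap F (L M)).comp σ) (x M) f = 0) →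
      eval₂ ((algebraMap 𝕂 (Om Ω)).comp (ρ.comp σ)) (fun j => Om.mk fun M => (x M j : Ω)) f
        = 0 := by
    intro R _ σ f hf
    rw [← RingHom.comp_assoc, hρ, RingHom.comp_assoc]
    refine eq_mk ((algebraMap F Ω).comp σ) (fun M j => (x M j : Ω)) f fun M => ?_
    have h1 := hom_eval₂ f ((algebraMap F (L M)).comp σ) (algebraMap (L M) Ω) (x M)
    rw [hf, map_zero] at h1
    exact h1.symm
  have hmem := const_pt (Ω := Om Ω) (x := fun j => Om.mk fun M => (x M j : Ω)) hNL ρ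
    (fun f hf => hcom ψ f fun M => hxV M f hf)
    (fun a => hcom (RingHom.id F) (G a) fun M => by
      have h2 := hxG M a
      rw [eval_map] at h2
      exact h2) hu hu' (t := t) (fun j => by rw [← hpt]; exact hxu j)
  have hint : ∀ j, IsIntegral (BH κ F Ω) (Om.mk fun M => (x M j : Ω)) := by
    intro j
    obtain ⟨b, hb⟩ := hmem j
    rw [← hb]
    exact h𝕂i _ b.2
  obtain ⟨B, hev⟩ := bound_seq (κ := κ) L hfd hfr x hxl hint
  have hcof : ∀ᶠ M : ℕ in (hyperfilter ℕ : Filter ℕ), B < (M : ℤ) := by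
    have h1 : ∀ᶠ M : ℕ in (cofinite : Filter ℕ), B < (M : ℤ) := by
      rw [Nat.cofinite_eq_atTop]
      filter_upwards [eventually_gt_atTop B.toNat] with M hM
      omega
    exact h1.filter_mono hyperfilter_le_cofinite
  obtain ⟨M, hM1, hM2⟩ := (hev.and hcof).exists
  have h3 := hpht M
  linarith

/-- **The heights of the points of bounded degree are bounded.** -/
theorem heights_core {k0 κ F Ω : Type} [Field k0] [Field κ] [Field F] [Field Ω] [IsAlgClosed κ]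
    [CharZero κ] [Algebra κ F] [IsFF κ F] [IsAlgClosed Ω] [Algebra F Ω] [Algebra κ Ω]
    [IsScalarTower κ F Ω] (ψ : k0 →+* F) {n m r : ℕ} {A : Type} [Fintype A]
    {dg : A → ℕ} {G : A → MvPolynomial (Fin (n + 1)) F}
    {q : Place κ F → ℤ} (hq0 : ∀ v, 0 ≤ q v) (hqfin : {v | q v ≠ 0}.Finite)
    (V : Set (MvPolynomial (Fin (n + 1)) k0))
    (hth : ∀ (L : Type) [Field L] [Algebra κ L] [Algebra F L] [IsScalarTower κ F L]
      [FiniteDimensional F L] [IsFF κ L] (x : Fin (n + 1) → L), x ≠ 0 →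
      (∀ f ∈ V, eval₂ ((algebraMap F L).comp ψ) x f = 0) →
      (∀ a, eval x (map (algebraMap F L) (G a)) = 0) →
      ∃ Θ : L, Θ ≠ 0 ∧ ∃ c : ℤ, ∑ a, ((dg a : ℤ) + 1) - 2 * m - 1 ≤ c ∧ ∀ P : Place κ L,
        -c * pord P x - (((ram F P : ℤ) - 1) + (m + 3) * (ram F P * q (under F P))) ≤ P.ord Θ)
    (hd : 2 * m + 1 + r ≤ ∑ a, (dg a + 1)) {l0 : Fin (n + 1)} (hNL : NoLine ψ V G l0) :
    ∃ B : ℤ, ∀ (L : IntermediateField F Ω), FiniteDimensional F L → Module.finrank F L ≤ r →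
      ∀ x : Fin (n + 1) → L, x l0 = 1 → IntermediateField.adjoin F (Set.range x) = ⊤ →
      (∀ f ∈ V, eval₂ ((algebraMap F L).comp ψ) x f = 0) →
      (∀ a, eval x (map (algebraMap F L) (G a)) = 0) → pht κ x ≤ B := by
  choose B hB using fun s : Fin (r + 1) => heights_deg (Ω := Ω) ψ hq0 hqfin V hth hd hNL
    (s := s) (Nat.lt_succ_iff.1 s.2)
  obtain ⟨B', hB'⟩ := (Set.finite_range B).bddAbove
  refine ⟨B', fun L hL hr x hxl hgen hxV hxG => ?_⟩
  exact (hB ⟨Module.finrank F L, Nat.lt_succ_of_le hr⟩ L hL rfl x hxl hgen hxV hxG).trans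
    (hB' ⟨_, rfl⟩)

end Pool.Agent.Y735.R3
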