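import Pool.Agent.Y735.R3.CoreT
import Pool.Agent.Y735.V.Duals

/-!
The local height inequalities for forms whose coefficients are algebraically independent over a
finitely generated field of functions.
-/

set_option autoImplicit false

open MvPolynomial FF Pool.Agent.W603.LV Pool.Agent.W603.PV Pool.Agent.TH145.GH
open Pool.Agent.TH145.MG (DimLE)
open Pool.Agent.TH145

namespace Pool.Agent.Y735.R3

open Pool.Agent.TH812.GV Pool.Agent.TH812.GV2

/-- Derivations dual to the coefficients, with their losses in the finite extensions. -/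
structure DataS (κ : Type) {F : Type} [Field κ] [Field F] [Algebra κ F] [IsAlgClosed κ]
    [CharZero κ] [IsFF κ F] {n : ℕ} {A : Type} (G : A → MvPolynomial (Fin (n + 1)) F)
    (dg : A → ℕ) (D : A → (Fin (n + 1) →₀ ℕ) → Derivation ℤ F F) (q : Place κ F → ℤ) : Prop where
  hom : ∀ a, (G a).IsHomogeneous (dg a)
  dual : ∀ a b (I J : Fin (n + 1) →₀ ℕ), I.degree = dg a → J.degree = dg b →
    (a = b → I = J → D a I ((G b).coeff J) = 1) ∧ (a ≠ b ∨ I ≠ J → D a I ((G b).coeff J) = 0)
  nn : ∀ v, 0 ≤ q v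
  fin : {v | q v ≠ 0}.Finite
  ext : ∀ (L : Type) [Field L] [Algebra κ L] [Algebra F L] [IsScalarTower κ F L]
    [FiniteDimensional F L] [IsFF κ L] (a : A) (I : Fin (n + 1) →₀ ℕ),
    ∃ D' : Derivation ℤ L L, (∀ x, D' (algebraMap F L x) = algebraMap F L (D a I x)) ∧
      ∀ P : Place κ L, Ge P (-(((ram F P : ℤ) - 1) + ram F P * q (under F P))) (D' (unif P)) ∧
        ∀ δ, Loc P δ → ∀ (g : ℤ) (f : L), Ge P g f →
          Ge P (g - ram F P * q (under F P)) (D' f - D' (unif P) * δ f)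

/-- **The local height inequalities over finite extensions.** -/
theorem theta_extS {k0 κ F L : Type} [Field k0] [Field κ] [Field F] [Field L] [IsAlgClosed κ]
    [CharZero κ] [Algebra κ F] [IsFF κ F] [Algebra κ L] [Algebra F L] [IsScalarTower κ F L]
    [FiniteDimensional F L] [IsFF κ L] (ψ : k0 →+* F) {n m : ℕ} {A : Type} [Fintype A]
    {dg : A → ℕ} {G : A → MvPolynomial (Fin (n + 1)) F}
    {D : A → (Fin (n + 1) →₀ ℕ) → Derivation ℤ F F} {q : Place κ F → ℤ}
    (hdat : DataS κ G dg D q) (hDk : ∀ a I (r : k0), D a I (ψ r) = 0)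
    (V : Set (MvPolynomial (Fin (n + 1)) k0)) (hV : DimLE k0 V m)
    {x : Fin (n + 1) → L} (hx : x ≠ 0)
    (hxV : ∀ f ∈ V, eval₂ ((algebraMap F L).comp ψ) x f = 0)
    (hxG : ∀ a, eval x (map (algebraMap F L) (G a)) = 0) :
    ∃ Θ : L, Θ ≠ 0 ∧ ∃ c : ℤ, ∑ a, ((dg a : ℤ) + 1) - 2 * m - 1 ≤ c ∧ ∀ P : Place κ L,
      -c * pord P x - (((ram F P : ℤ) - 1) + (m + 3) * (ram F P * q (under F P))) ≤ P.ord Θ := by
  classical
  have hF : CharZero F := charZero_of_injective_algebraMap (algebraMap κ F).injective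
  have hL : CharZero L := charZero_of_injective_algebraMap (algebraMap κ L).injective
  let _ : Algebra k0 F := ψ.toAlgebra
  let _ : Algebra k0 L := ((algebraMap F L).comp ψ).toAlgebra
  have hst : IsScalarTower k0 F L := IsScalarTower.of_algebraMap_eq fun _ => rfl
  choose D' hD1 hDl using fun a I => hdat.ext L a I
  have hD0 : ∀ a I (r : k0), D' a I (algebraMap k0 L r) = 0 := fun a I r => by
    have h1 := hD1 a I (ψ r)
    rw [hDk, map_zero] at h1
    exact h1
  obtain ⟨ql, hql⟩ : ∃ ql : Place κ L → ℤ, ∀ P, ql P = ram F P * q (under F P) :=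
    ⟨_, fun _ => rfl⟩
  obtain ⟨el, hel⟩ : ∃ el : Place κ L → ℤ, ∀ P, el P = ((ram F P : ℤ) - 1) + ql P :=
    ⟨_, fun _ => rfl⟩
  have hql0 : ∀ P, 0 ≤ ql P := fun P => by
    rw [hql]
    exact mul_nonneg (by positivity) (hdat.nn _)
  have hram1 : ∀ P : Place κ L, (1 : ℤ) ≤ ram F P := fun P => by
    exact_mod_cast (ram_spec (F := F) P).1
  have hqfin : {P : Place κ L | ql P ≠ 0}.Finite := by
    refine (finite_over_set (L := L) hdat.fin).subset fun P hP => ?_
    have hP' : ql P ≠ 0 := hP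
    rw [hql] at hP'
    exact right_ne_zero_of_mul hP'
  have hrfin : {P : Place κ L | (ram F P : ℤ) - 1 ≠ 0}.Finite :=
    ram_finite (F := F)
  have hefin : {P : Place κ L | el P ≠ 0}.Finite := by
    refine (hrfin.union hqfin).subset fun P hP => ?_
    by_contra hcon
    simp only [Set.mem_union, Set.mem_ofPred_eq, not_or, not_not] at hcon
    apply hP
    rw [hel, hcon.1, hcon.2, add_zero]
  have hsys : SysS κ (fun a => map (algebraMap F L) (G a)) dg D' (fun _ _ => 0) ql el := by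
    refine ⟨fun a => (hdat.hom a).map _, ?_, hql0, fun P => ?_, fun P a I hI => ?_,
      fun P δ hδ a I hI g f hf => ?_, hqfin, hefin⟩
    · intro a b I J hI hJ
      rw [coeff_map]
      rw [hD1]
      have h1 := hdat.dual a b I J hI hJ
      by_cases hab : a = b
      · by_cases hIJ : I = J
        · rw [h1.1 hab hIJ, if_pos hab, if_pos hIJ]
          simp
        · rw [h1.2 (Or.inr hIJ), if_pos hab, if_neg hIJ]
          simp
      · rw [h1.2 (Or.inl hab), if_neg hab, map_zero]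
    · rw [hel]
      have h1 := hram1 P
      have h2 := hql0 P
      omega
    · rw [hel, hql]
      exact (hDl a I P).1
    · rw [hql]
      exact (hDl a I P).2 δ hδ g f hf
  have htr : Algebra.trdeg k0 (Pool.Agent.W602.GT.coords k0 x) ≤ m := by
    refine hV L x hx fun f hf => ?_
    exact hxV f hf
  obtain ⟨W, hWm, hxW, hDW⟩ := exists_W hx htr
  obtain ⟨l0, hl0⟩ := Function.ne_iff.1 hx
  have hl0' : x l0 ≠ 0 := hl0
  obtain ⟨v, hdet, hv⟩ := exists_adapted (gw dg D' x l0) Gn.lev span_gw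
  obtain ⟨t0, ht0⟩ := sel_x hx hdet hv
  have hselv := sel_v2 hsys hl0' hdet hv
  have hT := card_T hdet W hWm hxW fun a I _ => hDW (D' a I) (hD0 a I)
  have hwt := sum_wt (d := dg) ht0 hT ∅ (fun a _ => hselv a (hxG a))
  rw [Finset.compl_empty] at hwt
  refine ⟨_, hdet, -∑ t, (v t).wt dg, by linarith, fun P => ?_⟩
  have h1 := local_ge2 hsys hl0' v hdet hv hT ∅ (fun a ha => absurd ha (by simp))
    (fun a ha => absurd ha (by simp)) P
  rw [Finset.sum_empty, if_pos rfl] at h1
  have h2 := hel P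
  have h3 := hql P
  rw [neg_neg, ← h3]
  linarith

/-- The derivations. -/
theorem exists_dataS {k0 k F0 F : Type} [Field k0] [Field k] [Field F0] [Field F] [IsAlgClosed k]
    [CharZero k] [Algebra k0 k] [Algebra k F] [Algebra k0 F] [IsScalarTower k0 k F]
    [Algebra k0 F0] [Algebra F0 F] [IsScalarTower k0 F0 F] [IsFF k F]
    (hfg : ∃ S : Finset F0, IntermediateField.adjoin k0 (S : Set F0) = ⊤) {n : ℕ}
    {A : Type} [Fintype A] {dg : A → ℕ} {G : A → MvPolynomial (Fin (n + 1)) F}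
    (hG : ∀ a, (G a).IsHomogeneous (dg a))
    (hgen : AlgebraicIndependent F0 fun p : GC.Cf n dg => (G p.1).coeff p.2.1) :
    ∃ (D : A → (Fin (n + 1) →₀ ℕ) → Derivation ℤ F F) (q : Place k F → ℤ),
      DataS k G dg D q ∧ ∀ a I (r : F0), D a I (algebraMap F0 F r) = 0 := by
  classical
  have hF : CharZero F := charZero_of_injective_algebraMap (algebraMap k F).injective
  have hcf := GC.finite_cf n dg
  obtain ⟨Db, hDbg, hDbk, hDb, -⟩ := Pool.Agent.Y735.V.exists_duals3 (k0 := k0) (k := k) (F0 := F0)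
    (F := F) hfg (fun p : GC.Cf n dg => (G p.1).coeff p.2.1) hgen
  obtain ⟨D, hD⟩ : ∃ D : A → (Fin (n + 1) →₀ ℕ) → Derivation ℤ F F, ∀ a I, D a I =
      if h : I.degree = dg a then Db ⟨a, I, h⟩ else 0 := ⟨_, fun _ _ => rfl⟩
  have hDd : ∀ a I (h : I.degree = dg a), D a I = Db ⟨a, I, h⟩ := fun a I h => by
    rw [hD, dif_pos h]
  have hD0 : ∀ a (I : Fin (n + 1) →₀ ℕ), I.degree ≠ dg a → D a I = 0 := fun a I h => by
    rw [hD, dif_neg h]
  choose q hq0 hqf hq using hDbg
  have hcf' : Fintype (GC.Cf n dg) := Fintype.ofFinite _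
  obtain ⟨Q, hQ⟩ : ∃ Q : Place k F → ℤ, ∀ v, Q v = ∑ p, q p v := ⟨_, fun _ => rfl⟩
  have hQ0 : ∀ v, 0 ≤ Q v := fun v => by
    rw [hQ]
    exact Finset.sum_nonneg fun p _ => hq0 p v
  have hQf : {v | Q v ≠ 0}.Finite := by
    refine (Set.finite_iUnion fun p => hqf p).subset fun v hv => ?_
    by_contra hcon
    simp only [Set.mem_iUnion, not_exists, Set.mem_ofPred_eq, not_not] at hcon
    apply hv
    rw [hQ]
    exact Finset.sum_eq_zero fun p _ => hcon p
  have hQle : ∀ p v, q p v ≤ Q v := by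
    intro p v
    rw [hQ]
    exact Finset.single_le_sum (f := fun p => q p v) (fun p _ => hq0 p v) (Finset.mem_univ p)
  refine ⟨D, Q, ⟨hG, ?_, hQ0, hQf, ?_⟩, ?_⟩
  · intro a b I J hI hJ
    rw [hDd a I hI]
    have h1 := hDb ⟨a, I, hI⟩ ⟨b, J, hJ⟩
    refine ⟨fun hab hIJ => ?_, fun h => ?_⟩
    · subst hab
      subst hIJ
      exact h1.1 rfl
    · refine h1.2 fun h' => ?_
      rcases h with h | h
      · exact h (congrArg Sigma.fst h')
      · obtain rfl : a = b := congrArg Sigma.fst h'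
        apply h
        have h2 := eq_of_heq (Sigma.mk.inj h').2
        exact congrArg Subtype.val h2
  · intro L _ _ _ _ _ _ a I
    by_cases hI : I.degree = dg a
    · rw [hDd a I hI]
      obtain ⟨D', hD', hDl⟩ := hq ⟨a, I, hI⟩ L
      refine ⟨D', hD', fun P => ?_⟩
      obtain ⟨h1, h2⟩ := hDl P
      have h3 : (ram F P : ℤ) * q ⟨a, I, hI⟩ (under F P) ≤ ram F P * Q (under F P) :=
        mul_le_mul_of_nonneg_left (hQle _ _) (by positivity)
      exact ⟨h1.mono (by linarith), fun δ hδ g f hf => (h2 δ hδ g f hf).mono (by linarith)⟩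
    · rw [hD0 a I hI]
      refine ⟨0, fun x => by simp, fun P => ⟨?_, fun δ hδ g f hf => ?_⟩⟩
      · exact Or.inl rfl
      · left
        simp
  · intro a I r
    by_cases hI : I.degree = dg a
    · rw [hDd a I hI]
      exact hDbk _ r
    · rw [hD0 a I hI]
      rfl

end Pool.Agent.Y735.R3
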