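import Pool.Agent.Y735.R3.DataS
import Pool.Agent.Y735.R3.BaseCh

/-!
Points of bounded degree over function fields.
-/

set_option autoImplicit false

open MvPolynomial FF Pool.Agent.W603.LV Pool.Agent.W603.PV Pool.Agent.TH145.GH
open Pool.Agent.TH145.MG (DimLE)
open Pool.Agent.TH145

open Pool.Agent.Y735.R (finrank_adjoin_le adjoin_top)

namespace Pool.Agent.Y735.R3

theorem bounded_K {k0 k K0 K : Type} [Field k0] [Field k] [Field K0] [Field K] [IsAlgClosed k]
    [CharZero k] [Algebra k0 k] [Algebra k K] [Algebra k0 K] [IsScalarTower k0 k K]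
    [Algebra k0 K0] [Algebra K0 K] [IsScalarTower k0 K0 K] [IsFF k K]
    (hfg : ∃ S : Finset K0, IntermediateField.adjoin k0 (S : Set K0) = ⊤) {n m r : ℕ}
    {A : Type} [Fintype A] {d : A → ℕ} (hd : 2 * m + 1 + r ≤ ∑ a, (d a + 1))
    (V : Set (MvPolynomial (Fin (n + 1)) K0)) (hVh : ∀ f ∈ V, ∃ e, f.IsHomogeneous e)
    (hV : DimLE K0 V m) {F : A → MvPolynomial (Fin (n + 1)) K}
    (hF : ∀ a, (F a).IsHomogeneous (d a))
    (hgen : AlgebraicIndependent K0 fun p : GC.Cf n d => (F p.1).coeff p.2.1) :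
    ∃ B : ℤ, ∀ (L : Type) [Field L] [Algebra k L] [Algebra K L] [IsScalarTower k K L]
      [FiniteDimensional K L], Module.finrank K L ≤ r → ∀ x : Fin (n + 1) → L, x ≠ 0 →
      (∀ f ∈ V, aeval x (map (algebraMap K0 K) f) = 0) → (∀ a, aeval x (F a) = 0) →
      pht k x ≤ B := by
  classical
  rcases Nat.eq_zero_or_pos r with hr0 | hr0
  · refine ⟨0, fun L _ _ _ _ _ hr => ?_⟩
    have := Module.finrank_pos (R := K) (M := L)
    omega
  have hK : CharZero K := charZero_of_injective_algebraMap (algebraMap k K).injective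
  obtain ⟨D, q, hdat, hDk⟩ := exists_dataS (k0 := k0) (k := k) hfg hF hgen
  have hcore := fun l0 : Fin (n + 1) => heights_core (k0 := K0) (κ := k) (F := K)
    (Ω := AlgebraicClosure K) (algebraMap K0 K) (G := F) (r := r) hdat.nn hdat.fin V
    (fun L _ _ _ _ _ _ x hx hxV hxG => theta_extS (algebraMap K0 K) hdat hDk V hV hx hxV hxG) hd
    (noLine_K (m := m) (by omega) V hV hF hgen l0)
  choose B hB using hcore
  obtain ⟨B', hB'⟩ : ∃ B' : ℤ, 0 ≤ B' ∧ ∀ l0, B l0 ≤ B' := by
    refine ⟨∑ l, max (B l) 0, Finset.sum_nonneg fun _ _ => le_max_right _ _, fun l0 => ?_⟩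
    exact (le_max_left _ _).trans (Finset.single_le_sum (f := fun l => max (B l) 0)
      (fun _ _ => le_max_right _ _) (Finset.mem_univ l0))
  refine ⟨∑ _j : Fin (n + 1), (r : ℤ) * B', fun L _ _ _ _ _ hr x hx hxV hxF => ?_⟩
  have hL : IsFF k L := isFF_of_finite (F := K)
  obtain ⟨l0, hl0⟩ := Function.ne_iff.1 hx
  have hl0' : x l0 ≠ 0 := hl0
  refine (pht_le (k := k) x hl0').trans (Finset.sum_le_sum fun j _ => ?_)
  obtain ⟨x', hx'⟩ : ∃ x' : Fin (n + 1) → L, ∀ j, x' j = x j / x l0 := ⟨_, fun _ => rfl⟩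
  have hx's : x' = (x l0)⁻¹ • x := by
    funext j
    rw [hx', Pi.smul_apply, smul_eq_mul, div_eq_inv_mul]
  have hxl : x' l0 = 1 := by rw [hx', div_self hl0']
  have hx'V : ∀ f ∈ V, aeval x' (map (algebraMap K0 K) f) = 0 := fun f hf => by
    obtain ⟨e, he⟩ := hVh f hf
    rw [hx's, Pool.Agent.TH145.MG.aeval_smul (he.map _), hxV f hf, mul_zero]
  have hx'F : ∀ a, aeval x' (F a) = 0 := fun a => by
    rw [hx's, Pool.Agent.TH145.MG.aeval_smul (hF a), hxF a, mul_zero]
  let σ : L →ₐ[K] AlgebraicClosure K := IsAlgClosed.lift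
  obtain ⟨xs, hxs⟩ : ∃ xs : Fin (n + 1) → AlgebraicClosure K, ∀ j, xs j = σ (x' j) :=
    ⟨_, fun _ => rfl⟩
  obtain ⟨L1, hL1⟩ : ∃ L1 : IntermediateField K (AlgebraicClosure K),
    L1 = IntermediateField.adjoin K (Set.range xs) := ⟨_, rfl⟩
  have hle : L1 ≤ σ.fieldRange := by
    rw [hL1, IntermediateField.adjoin_le_iff]
    rintro _ ⟨j, rfl⟩
    exact ⟨x' j, (hxs j).symm⟩
  -- the embedding of the field of the point
  obtain ⟨τ, hτ⟩ : ∃ τ : L1 →ₐ[K] L, ∀ z, σ (τ z) = z := by
    refine ⟨(AlgEquiv.ofInjectiveField σ).symm.toAlgHom.comp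
      (IntermediateField.inclusion hle), fun z => ?_⟩
    have h1 := (AlgEquiv.ofInjectiveField σ).apply_symm_apply (IntermediateField.inclusion hle z)
    exact congrArg Subtype.val h1
  have hfd : FiniteDimensional K L1 := FiniteDimensional.of_injective τ.toLinearMap τ.injective
  have hfr : Module.finrank K L1 ≤ r :=
    (LinearMap.finrank_le_finrank_of_injective (f := τ.toLinearMap) τ.injective).trans hr
  obtain ⟨y, hy⟩ : ∃ y : Fin (n + 1) → L1, ∀ j, (y j : AlgebraicClosure K) = xs j :=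
    ⟨fun j => ⟨xs j, by rw [hL1]; exact IntermediateField.subset_adjoin _ _ ⟨j, rfl⟩⟩,
      fun _ => rfl⟩
  have hyx : ∀ j, τ (y j) = x' j := fun j => by
    refine σ.injective ?_
    change σ _ = σ _
    rw [hτ, hy, hxs]
  have hyl : y l0 = 1 := by
    refine τ.injective ?_
    change τ (y l0) = τ 1
    rw [hyx, hxl, map_one]
  have hgen1 : IntermediateField.adjoin K (Set.range y) = ⊤ := by
    subst hL1
    exact adjoin_top xs y hy
  have hyV : ∀ f ∈ V, eval₂ ((algebraMap K L1).comp (algebraMap K0 K)) y f = 0 := fun f hf => by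
    refine τ.injective ?_
    change τ _ = τ 0
    have h1 := hom_eval₂ f ((algebraMap K L1).comp (algebraMap K0 K)) (τ : L1 →+* L) y
    have h2 : (τ : L1 →+* L).comp ((algebraMap K L1).comp (algebraMap K0 K)) =
        (algebraMap K L).comp (algebraMap K0 K) := by
      ext r
      exact τ.commutes _
    have h3 : (fun j => (τ : L1 →+* L) (y j)) = x' := funext hyx
    rw [h2, h3] at h1
    have h4 := hx'V f hf
    rw [aeval_def, eval₂_map] at h4
    rw [map_zero]
    exact h1.trans h4
  have hyF : ∀ a, eval y (map (algebraMap K L1) (F a)) = 0 := fun a => by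
    refine τ.injective ?_
    change τ _ = τ 0
    have h1 := hom_eval₂ (F a) (algebraMap K L1) (τ : L1 →+* L) y
    have h2 : (τ : L1 →+* L).comp (algebraMap K L1) = algebraMap K L := by
      ext r
      exact τ.commutes _
    have h3 : (fun j => (τ : L1 →+* L) (y j)) = x' := funext hyx
    rw [h2, h3] at h1
    rw [map_zero, eval_map]
    exact h1.trans (hx'F a)
  have hL1F : IsFF k L1 := isFF_of_finite (F := K)
  have h1 := (hB l0 L1 hfd hfr y hyl hgen1 hyV hyF).trans (hB'.2 l0)
  let _ : Algebra L1 L := τ.toAlgebra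
  have hst1 : IsScalarTower K L1 L := IsScalarTower.of_algebraMap_eq fun z => (τ.commutes z).symm
  have hst2 : IsScalarTower k L1 L := by
    refine IsScalarTower.of_algebraMap_eq fun z => ?_
    rw [IsScalarTower.algebraMap_apply k K L, IsScalarTower.algebraMap_apply k K L1]
    exact (τ.commutes _).symm
  have hfd1 : FiniteDimensional L1 L := FiniteDimensional.right K L1 L
  have hfr1 : Module.finrank L1 L ≤ r := by
    have h2 := Module.finrank_mul_finrank K L1 L
    have h3 := Module.finrank_pos (R := K) (M := L1)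
    nlinarith
  have h2 : hgt k (x j / x l0) = Module.finrank L1 L * hgt k (y j) := by
    rw [← hx', ← hyx]
    exact hgt_algebraMap (k := k) (F := L1) (L := L) (y j)
  rw [h2]
  have h3 : hgt k (y j) ≤ B' := by
    by_cases hj : y j = 0
    · rw [hj]
      have := Pool.Agent.TH145.MG.hgt_const (k := k) (L := L1) 0
      rw [map_zero] at this
      rw [this]
      exact hB'.1
    · have h4 := Pool.Agent.W603.CX.hgt_le_pht (k := k) y hj (l := l0)
        (by rw [hyl]; exact one_ne_zero)
      rw [hyl, div_one] at h4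
      exact h4.trans h1
  have h4 : (Module.finrank L1 L : ℤ) ≤ r := by exact_mod_cast hfr1
  exact mul_le_mul h4 h3 (hgt_nonneg _) (by positivity)

end Pool.Agent.Y735.R3
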